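import Pool.Agent.Run7.h836.LK.MChain
import Pool.Agent.TH821.HexGroup

set_option autoImplicit false

/-!
# Left-ordered groups and the relations of surgeries on the covers of the figure eight knot
-/

namespace Pool.Agent.Run7.H836.LK

open Pool.Agent.W705.Borr Pool.Agent.TH821.Chain Pool.Agent.TH821.Hex

/-- The relations between `x i`, `v i`, `w i` and the elements `e i`, `f i`, `r i`. -/
structure MRel {H : Type*} [Group H] {n : ℕ} (x v w e f r : ZMod n → H)
    (a b : Fin 3 → ZMod n → ℕ) : Prop where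
  prod : ∀ i, x i * v i * w i = 1
  xe : ∀ i, Fol (x i) (e i) (a 0 i) (b 0 i)
  le : ∀ i, a 0 i ≤ b 0 i
  vr : ∀ i, Fol (v i) (r i) (a 1 i) (b 1 i)
  wf : ∀ i, Fol (w i) (f i) (a 2 i) (b 2 i)
  relA : ∀ i, e (i + 1) * x (i + 1) * v (i + 1) * v (i + 1) * r (i + 1) =
    e i * x i * v i * v i * r i * w i
  relB : ∀ i, (v (i + 1) * r (i + 1))⁻¹ * (f (i + 1))⁻¹ = x i * (v i * r i)⁻¹ * (f i)⁻¹

section alg
variable {H : Type*} [Group H] {n : ℕ} {x v w e f r : ZMod n → H} {a b : Fin 3 → ZMod n → ℕ}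

theorem MRel.vw (R : MRel x v w e f r a b) (i : ZMod n) : v i * w i = (x i)⁻¹ := by
  have := R.prod i
  rw [eq_inv_iff_mul_eq_one]
  calc v i * w i * x i = (x i)⁻¹ * (x i * v i * w i) * x i := by group
    _ = 1 := by rw [this]; group

theorem MRel.A' (R : MRel x v w e f r a b) (i : ZMod n) :
    e (i + 1) * (x (i + 1) * (v (i + 1) * (v (i + 1) * r (i + 1)))) =
      e i * (x i * (v i * (r i * (x i)⁻¹))) := by
  have hc := (R.vr i).comm
  calc e (i + 1) * (x (i + 1) * (v (i + 1) * (v (i + 1) * r (i + 1))))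
      = e (i + 1) * x (i + 1) * v (i + 1) * v (i + 1) * r (i + 1) := by group
    _ = e i * x i * v i * v i * r i * w i := R.relA i
    _ = e i * x i * v i * (v i * r i) * w i := by group
    _ = e i * (x i * (v i * (r i * (v i * w i)))) := by rw [hc]; group
    _ = _ := by rw [R.vw]

theorem MRel.C' (R : MRel x v w e f r a b) (i : ZMod n) :
    w (i + 1) * (f (i + 1) * (e (i + 1))⁻¹) = f i * ((x i)⁻¹ * (e i)⁻¹) := by
  have h1 : ∀ j, w j * (f j * (e j)⁻¹) =
      ((e j * (x j * (v j * (v j * r j)))) * ((v j * r j)⁻¹ * (f j)⁻¹))⁻¹ := by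
    intro j
    have hc := (R.wf j).comm
    have h2 : x j * v j = (w j)⁻¹ := by
      rw [eq_inv_iff_mul_eq_one]; exact R.prod j
    calc w j * (f j * (e j)⁻¹) = (w j * f j) * (e j)⁻¹ := by group
      _ = f j * ((w j)⁻¹)⁻¹ * (e j)⁻¹ := by rw [hc]; group
      _ = f j * (x j * v j)⁻¹ * (e j)⁻¹ := by rw [h2]
      _ = _ := by group
  rw [h1, R.A', R.relB]
  calc (e i * (x i * (v i * (r i * (x i)⁻¹))) * (x i * (v i * r i)⁻¹ * (f i)⁻¹))⁻¹
      = f i * (v i * r i) * (v i * r i)⁻¹ * ((x i)⁻¹ * (e i)⁻¹) := by group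
    _ = _ := by group

/-- The element `x e⁻¹` follows `x`. -/
theorem fol_sub {x e : H} {a b : ℕ} (h : Fol x e a b) (hab : a ≤ b) :
    Fol x (x * e⁻¹) (b - a) b := by
  have hc : Commute x e := h.comm
  refine ⟨?_, h.pos, ?_⟩
  · exact ((Commute.refl x).mul_right hc.inv_right).eq
  · rw [(hc.inv_right).mul_pow, inv_pow, h.pow]
    obtain ⟨c, rfl⟩ := Nat.exists_eq_add_of_le' hab
    rw [Nat.add_sub_cancel, pow_add, mul_assoc, mul_inv_cancel, mul_one]

end alg

theorem algA {G : Type*} [Group G] {s X V c c' : G}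
    (h : s * (c * X * (c' * V ^ (-2 : ℤ))⁻¹) * s⁻¹ = c * X * (c' * V ^ (-2 : ℤ))⁻¹ * (X * V)⁻¹) :
    s * (c * X * V * V * c'⁻¹) * s⁻¹ = c * X * V * V * c'⁻¹ * (X * V)⁻¹ := by
  have e : c * X * (c' * V ^ (-2 : ℤ))⁻¹ = c * X * V * V * c'⁻¹ := by
    rw [mul_inv_rev, zpow_neg, inv_inv, zpow_two]
    simp only [mul_assoc]
  rwa [e] at h

theorem algB {G : Type*} [Group G] {s X V c c' : G}
    (h : s * (c * V ^ (-2 : ℤ) * V * c'⁻¹) * s⁻¹ = X * (c * V ^ (-2 : ℤ) * V * c'⁻¹)) :
    s * ((V * c⁻¹)⁻¹ * c'⁻¹) * s⁻¹ = X * (V * c⁻¹)⁻¹ * c'⁻¹ := by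
  have e : c * V ^ (-2 : ℤ) * V * c'⁻¹ = (V * c⁻¹)⁻¹ * c'⁻¹ := by group
  rw [e] at h
  rw [h]; group

section act
variable {H : Type*} [Group H] [LinearOrder H] (hinv : ∀ a b c : H, a ≤ b ↔ c * a ≤ c * b)

include hinv in
theorem up_down {x e : H} {a b : ℕ} (h : Fol x e a b) (hab : a ≤ b) :
    (∀ y, y ≤ act hinv x y → act hinv e y ≤ act hinv x y) ∧
      (∀ y, act hinv x y ≤ y → act hinv x y ≤ act hinv e y) := by
  have hz := follows_of_fol hinv (fol_sub h hab)
  have key : ∀ y, act hinv (x * e⁻¹) (act hinv e y) = act hinv x y := by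
    intro y
    rw [← act_mul, inv_mul_cancel_right]
  have hc : ∀ y, act hinv x (act hinv e y) = act hinv e (act hinv x y) := by
    intro y
    rw [← act_mul, ← act_mul, h.comm]
  constructor
  · intro y hy
    rw [← key y]
    apply hz.up
    rw [hc]
    exact (act hinv e).le_iff_le.mpr hy
  · intro y hy
    rw [← key y]
    apply hz.down
    rw [hc]
    exact (act hinv e).le_iff_le.mpr hy

include hinv in
/-- In a left-ordered group the relations force triviality. -/
theorem mrel_trivial {n : ℕ} (hn : 0 < n) {x v w e f r : ZMod n → H}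
    {a b : Fin 3 → ZMod n → ℕ} (R : MRel x v w e f r a b) (i : ZMod n) : x i = 1 ∧ v i = 1 := by
  have : NeZero n := ⟨hn.ne'⟩
  have hN0 : ∀ j : ℕ, ((j + n : ℕ) : ZMod n) = (j : ZMod n) := by
    intro j; push_cast; rw [ZMod.natCast_self, add_zero]
  have hC : MChain (fun j : ℕ => act hinv (x j)) (fun j : ℕ => act hinv (v j))
      (fun j : ℕ => act hinv (w j)) (fun j : ℕ => act hinv (e j))
      (fun j : ℕ => act hinv (f j)) (fun j : ℕ => act hinv (r j)) := by
    refine ⟨?_, ?_, ?_⟩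
    · intro j
      refine ⟨?_, follows_of_fol hinv (R.xe _), (up_down hinv (R.xe _) (R.le _)).1,
        (up_down hinv (R.xe _) (R.le _)).2, follows_of_fol hinv (R.vr _),
        follows_of_fol hinv (R.wf _)⟩
      intro u
      rw [← act_mul, ← act_mul, R.prod, act_one]
    · intro j y
      simp only [← act_inv, ← act_mul]
      rw [Nat.cast_add, Nat.cast_one, R.A' (j : ZMod n)]
    · intro j y
      simp only [← act_inv, ← act_mul]
      rw [Nat.cast_add, Nat.cast_one, R.C' (j : ZMod n)]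
  have hP : MPer n (fun j : ℕ => act hinv (x j)) (fun j : ℕ => act hinv (v j))
      (fun j : ℕ => act hinv (w j)) (fun j : ℕ => act hinv (e j))
      (fun j : ℕ => act hinv (f j)) (fun j : ℕ => act hinv (r j)) := by
    refine ⟨?_, ?_, ?_, ?_, ?_, ?_⟩ <;> intro j <;> simp only [hN0]
  have hi : ((i.val : ℕ) : ZMod n) = i := ZMod.natCast_zmod_val i
  constructor
  · apply eq_one_of_act hinv
    intro y
    have := (hC.fixed hP hn i.val y).1
    simp only [hi] at this
    exact this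
  · apply eq_one_of_act hinv
    intro y
    have := (hC.fixed hP hn i.val y).2
    simp only [hi] at this
    exact this

end act

end Pool.Agent.Run7.H836.LK
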