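import Pool.Agent.Run7.h836.LK.Kernel

set_option autoImplicit false

/-!
# The relations of a pretzel knot with circles around its columns

`α, β, γ` are meridians at the top of two neighbouring columns, `P = α β⁻¹` and `Q = β γ⁻¹`.
-/

namespace Pool.Agent.Run7.H836.LK

variable {G : Type*} [Group G]

/-- One relator, with `F = c P ^ l` and `K = c' Q ^ l'`. -/
theorem one_rel {α β γ c c' : G} (l l' : ℤ) (hc : α * β⁻¹ * c = c * (α * β⁻¹))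
    (hc' : β * γ⁻¹ * c' = c' * (β * γ⁻¹))
    (h : ((c⁻¹ * α * c) * (c⁻¹ * β⁻¹ * c)) ^ (-l - 1) * (c⁻¹ * α * c) *
        ((c⁻¹ * α * c) * (c⁻¹ * β⁻¹ * c)) ^ (l + 1) *
      (((c'⁻¹ * β * c') * (c'⁻¹ * γ⁻¹ * c')) ^ (-l') * (c'⁻¹ * γ⁻¹ * c') *
        ((c'⁻¹ * β * c') * (c'⁻¹ * γ⁻¹ * c')) ^ l') = 1) :
    α * (c * (α * β⁻¹) ^ l * (α * β⁻¹) * (c' * (β * γ⁻¹) ^ l')⁻¹) * γ⁻¹ =
      c * (α * β⁻¹) ^ l * (α * β⁻¹) * (c' * (β * γ⁻¹) ^ l')⁻¹ := by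
  have e1 : (c⁻¹ * α * c) * (c⁻¹ * β⁻¹ * c) = α * β⁻¹ := by
    calc (c⁻¹ * α * c) * (c⁻¹ * β⁻¹ * c) = c⁻¹ * (α * β⁻¹ * c) := by group
      _ = _ := by rw [hc]; group
  have e2 : (c'⁻¹ * β * c') * (c'⁻¹ * γ⁻¹ * c') = β * γ⁻¹ := by
    calc (c'⁻¹ * β * c') * (c'⁻¹ * γ⁻¹ * c') = c'⁻¹ * (β * γ⁻¹ * c') := by group
      _ = _ := by rw [hc']; group
  rw [e1, e2] at h
  set P := α * β⁻¹ with hP
  set Q := β * γ⁻¹ with hQ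
  have hcl : ∀ k : ℤ, P ^ k * c = c * P ^ k := by
    intro k
    exact ((show Commute P c from hc).zpow_left k).eq
  have hcl' : ∀ k : ℤ, Q ^ k * c' = c' * Q ^ k := by
    intro k
    exact ((show Commute Q c' from hc').zpow_left k).eq
  have e3 : P ^ (-l - 1) * (c⁻¹ * α * c) * P ^ (l + 1) =
      (c * P ^ l * P)⁻¹ * α * (c * P ^ l * P) := by
    have h1 : c * P ^ l * P = c * P ^ (l + 1) := by rw [mul_assoc, ← zpow_add_one]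
    rw [h1]
    have h2 : P ^ (-l - 1) * c⁻¹ = (c * P ^ (l + 1))⁻¹ := by
      rw [mul_inv_rev, ← zpow_neg, show -(l + 1) = -l - 1 by ring]
    calc P ^ (-l - 1) * (c⁻¹ * α * c) * P ^ (l + 1) =
        (P ^ (-l - 1) * c⁻¹) * α * (c * P ^ (l + 1)) := by group
      _ = _ := by rw [h2]
  have e4 : Q ^ (-l') * (c'⁻¹ * γ⁻¹ * c') * Q ^ l' =
      (c' * Q ^ l')⁻¹ * γ⁻¹ * (c' * Q ^ l') := by
    have h2 : Q ^ (-l') * c'⁻¹ = (c' * Q ^ l')⁻¹ := by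
      rw [mul_inv_rev, ← zpow_neg]
    calc Q ^ (-l') * (c'⁻¹ * γ⁻¹ * c') * Q ^ l' =
        (Q ^ (-l') * c'⁻¹) * γ⁻¹ * (c' * Q ^ l') := by group
      _ = _ := by rw [h2]
  rw [e3, e4] at h
  set F := c * P ^ l * P with hF
  set K := c' * Q ^ l' with hK
  calc α * (F * K⁻¹) * γ⁻¹ = F * (F⁻¹ * α * F * (K⁻¹ * γ⁻¹ * K)) * K⁻¹ := by group
    _ = F * K⁻¹ := by rw [h]; group

/-- The first relation: conjugation by `s = α`. -/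
theorem relA_of {s b t F K : G}
    (h : s * (F * (s * b⁻¹) * K⁻¹) * t⁻¹ = F * (s * b⁻¹) * K⁻¹) :
    s * (F * (s * b⁻¹) * K⁻¹) * s⁻¹ = F * (s * b⁻¹) * K⁻¹ * ((s * b⁻¹) * (b * t⁻¹))⁻¹ := by
  calc s * (F * (s * b⁻¹) * K⁻¹) * s⁻¹ =
      (s * (F * (s * b⁻¹) * K⁻¹) * t⁻¹) * (t * s⁻¹) := by group
    _ = _ := by rw [h]; group

/-- The second relation: conjugation by `s`. -/
theorem relB_of {s b t F K : G}
    (h : b * (F * (b * t⁻¹) * K⁻¹) * s⁻¹ = F * (b * t⁻¹) * K⁻¹) :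
    s * (F * (b * t⁻¹) * K⁻¹) * s⁻¹ = (s * b⁻¹) * (F * (b * t⁻¹) * K⁻¹) := by
  calc s * (F * (b * t⁻¹) * K⁻¹) * s⁻¹ =
      (s * b⁻¹) * (b * (F * (b * t⁻¹) * K⁻¹) * s⁻¹) := by group
    _ = _ := by rw [h]

end Pool.Agent.Run7.H836.LK
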