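import Pool.Agent.TH821.HexGroup

set_option autoImplicit false

/-!
# Homomorphisms from the kernel of a homomorphism to `Z/n`

`G` is generated by `s`, of order dividing `n` and of degree `1`, and elements `y k` of degree `0`.
The kernel of the degree is generated by the conjugates of the `y k` by powers of `s`.
-/

namespace Pool.Agent.Run7.H836.LK

open Pool.Agent.TH821.Cyc Pool.Agent.TH821.Hex

variable {G : Type*} [Group G] {n : ℕ} {ι : Type*}

/-- The subgroup generated by the conjugates of the `y k`. -/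
def NN (n : ℕ) (s : G) (y : ι → G) : Subgroup G :=
  Subgroup.closure (Set.range fun p : ι × ZMod n => cj s (y p.1) p.2)

theorem conj_mem (hn : 0 < n) {s : G} {y : ι → G} (hs : s ^ n = 1) {x : G}
    (hx : x ∈ NN n s y) : s * x * s⁻¹ ∈ NN n s y := by
  induction hx using Subgroup.closure_induction with
  | mem x hx =>
    obtain ⟨⟨k, i⟩, rfl⟩ := hx
    rw [← cj_succ hn hs]
    exact Subgroup.subset_closure ⟨(k, i + 1), rfl⟩
  | one => simpa using Subgroup.one_mem _
  | mul x y _ _ hx hy =>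
    have : s * (x * y) * s⁻¹ = (s * x * s⁻¹) * (s * y * s⁻¹) := by group
    rw [this]; exact mul_mem hx hy
  | inv x _ hx =>
    have : s * x⁻¹ * s⁻¹ = (s * x * s⁻¹)⁻¹ := by group
    rw [this]; exact inv_mem hx

theorem conj_pow_mem (hn : 0 < n) {s : G} {y : ι → G} (hs : s ^ n = 1) {x : G}
    (hx : x ∈ NN n s y) (m : ℕ) : s ^ m * x * (s ^ m)⁻¹ ∈ NN n s y := by
  induction m with
  | zero => simpa using hx
  | succ m ih =>
    have : s ^ (m + 1) * x * (s ^ (m + 1))⁻¹ = s * (s ^ m * x * (s ^ m)⁻¹) * s⁻¹ := by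
      rw [pow_succ']; group
    rw [this]; exact conj_mem hn hs ih

/-- The subgroup `NN ⟨s⟩`. -/
def NS (hn : 0 < n) {s : G} (y : ι → G) (hs : s ^ n = 1) : Subgroup G where
  carrier := {g | ∃ x ∈ NN n s y, ∃ m : ℕ, g = x * s ^ m}
  mul_mem' := by
    rintro _ _ ⟨x, hx, m, rfl⟩ ⟨z, hz, l, rfl⟩
    refine ⟨x * (s ^ m * z * (s ^ m)⁻¹), mul_mem hx (conj_pow_mem hn hs hz m), m + l, ?_⟩
    rw [pow_add]; group
  one_mem' := ⟨1, one_mem _, 0, by simp⟩
  inv_mem' := by
    rintro _ ⟨x, hx, m, rfl⟩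
    refine ⟨s ^ (m * (n - 1)) * x⁻¹ * (s ^ (m * (n - 1)))⁻¹,
      conj_pow_mem hn hs (inv_mem hx) _, m * (n - 1), ?_⟩
    rw [mul_inv_rev, inv_eq_pow hn hs m]; group

/-- If `G` is generated by `s` and the `y k` then the kernel of `d` is contained in `NN`. -/
theorem ker_le (hn : 0 < n) {s : G} {y : ι → G} (hs : s ^ n = 1)
    (hgen : ∀ K : Subgroup G, s ∈ K → (∀ k, y k ∈ K) → K = ⊤)
    (d : G →* Multiplicative (ZMod n)) (ds : d s = Multiplicative.ofAdd 1)
    (dy : ∀ k, d (y k) = 1) {g : G} (hg : d g = 1) : g ∈ NN n s y := by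
  have h1 : NS hn y hs = ⊤ := by
    apply hgen
    · exact ⟨1, one_mem _, 1, by simp⟩
    · intro k
      exact ⟨y k, Subgroup.subset_closure ⟨(k, 0), cj_zero hn s (y k)⟩, 0, by simp⟩
  have h2 : NN n s y ≤ d.ker := by
    unfold NN
    rw [Subgroup.closure_le]
    rintro _ ⟨⟨k, i⟩, rfl⟩
    show d _ = 1
    unfold cj; rw [map_mul, map_mul, dy, map_inv]; simp
  have h3 : g ∈ NS hn y hs := by rw [h1]; trivial
  obtain ⟨x, hx, m, rfl⟩ := h3
  have h4 : d x = 1 := h2 hx
  rw [map_mul, h4, one_mul, map_pow, ds, ← ofAdd_nsmul] at hg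
  have h5 : (m : ZMod n) = 0 := by
    have := Multiplicative.ofAdd.injective (hg.trans ofAdd_zero.symm)
    simpa using this
  rw [ZMod.natCast_eq_zero_iff] at h5
  obtain ⟨l, rfl⟩ := h5
  rw [pow_mul, hs, one_pow, mul_one]
  exact hx

/-- A homomorphism of the kernel that kills the conjugates of the `y k` is trivial. -/
theorem ker_trivial (hn : 0 < n) {s : G} {y : ι → G} (hs : s ^ n = 1)
    (hgen : ∀ K : Subgroup G, s ∈ K → (∀ k, y k ∈ K) → K = ⊤)
    (d : G →* Multiplicative (ZMod n)) (ds : d s = Multiplicative.ofAdd 1)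
    (dy : ∀ k, d (y k) = 1) {H : Type*} [Group H] (φ : d.ker →* H)
    (triv : ∀ k i, φ (ck d s i ⟨y k, dy k⟩) = 1) (g : d.ker) : φ g = 1 := by
  have h1 : NN n s y ≤ φ.ker.map d.ker.subtype := by
    unfold NN
    rw [Subgroup.closure_le]
    rintro _ ⟨⟨k, i⟩, rfl⟩
    exact ⟨ck d s i ⟨y k, dy k⟩, triv k i, rfl⟩
  obtain ⟨g', hg', hgg⟩ := h1 (ker_le hn hs hgen d ds dy g.2)
  have : g' = g := Subtype.ext hgg
  rw [← this]; exact hg'

/-- A relation between an element and its conjugate by `s` becomes a relation between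
consecutive conjugates. -/
theorem ck_shift (hn : 0 < n) {s : G} (hs : s ^ n = 1) (d : G →* Multiplicative (ZMod n))
    {H : Type*} [Group H] (φ : d.ker →* H) (i : ZMod n) (x y : d.ker)
    (hxy : s * x.1 * s⁻¹ = y.1) : φ (ck d s (i + 1) x) = φ (ck d s i y) := by
  congr 1
  apply Subtype.ext
  show cj s x.1 (i + 1) = cj s y.1 i
  rw [cj_shift hn hs, hxy]

end Pool.Agent.Run7.H836.LK
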